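import Mathlib
import Pool.Agent.Q199.Mem.Words
set_option autoImplicit false

/-! # MP_674d90_lc, Q1: a safety condition with finite general memory and infinite chromatic
memory (positive answer).

`Arena`, `Strategy`, `MemStr`, `GenMem` and `ChrMem` (in `Pool.Agent.Q199.Mem.Defs`) are the notions
of the problem: finite arenas, strategies on finite paths (the same strategy for all starting
nodes), memory structures with `k` states, and the least number of states of general, respectively
chromatic, memory with which Protagonist plays optimally in every arena.

The condition: the four colours act on a counter in `ℕ` that starts at `1`, with `0` absorbing: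
`n ↦ n - 1`; `n ↦ n` if `n ≠ 2` and `2 ↦ 0`; `n ↦ n + 1`; `n ↦ 2n + [n is a perfect square]`
(for `n ≥ 1`). A word is in `W` if the counter never hits `0`. The residual of `n` is included in
that of `m` whenever `m = n` or `m ≥ n + 2`, so there are two chains of residuals, while the
residuals of `n` and `n + 1` are incomparable for `n ≥ 1` and no finite automaton reading colours
can separate all these pairs. -/

namespace Pool.Agent.Results.MP_674d90_lc.SafetySeparation

open Pool.Agent.Q199.Mem

/-- There are a finite set of colours and a safety (closed) condition over it with
`GenMem W = 2` and `ChrMem W = ∞`. -/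
theorem result : ∃ (n : ℕ) (W : Set (ℕ → Fin n)), IsClosed W ∧ GenMem W = 2 ∧ ChrMem W = ⊤ :=
  ⟨4, safeW op4, isClosed_safeW op4, genMem_two (genOK_safe good4) (not_chrOK4 1),
    chrMem_top fun k _ => not_chrOK4 k⟩

end Pool.Agent.Results.MP_674d90_lc.SafetySeparation
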